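import Pool.Agent.Run7.h620.PX.Lx
import Pool.Agent.Run7.h620.PX.Ux

set_option autoImplicit false

/-!
# Palindromes whose digits are in arbitrary sets depending on the place: almost primes and primes

Let `b ≥ 2`. There are `c, C > 0` and `r` such that for all large `K` and for ALL sets `A 0, A 1, …` of at least two base
`b` digits, one for every place up to the middle, at least `c N / K` of the about `N = |A 0| |A 1| ⋯` palindromes `n`
with `K` base `b` digits, whose digits at the place `i` and at the opposite place are in `A i`, have at most `r` prime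
factors, counted with multiplicity, and at most `C N / K` of them are prime. Here `c`, `C` and `r` depend only on `b`.

Proof. In the exponential sum over the digits at one place the terms of two digits cancel partially, unless the
difference of these digits times the frequency is close to an integer. If this happens at two consecutive places, a
balanced digit of a fixed multiple of the frequency vanishes. The nonzero balanced digits of all fractions with
denominators up to `exp (c K)` are counted at once, which gives a positive level of distribution, uniform in the sets.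
The residue class modulo a fixed number, in which no member is divisible by a high power of a small prime, is found
by a counting argument; for the primes dividing `b` it uses many low places at which two digits have the same
difference. The rest is the fundamental lemma and the theorem of Mertens.
-/

namespace Pool.Agent.Results.MP_e8d2ce_nt.ArbitraryDigitSets

open Finset Filter

/-- `n` has exactly `K` base `b` digits, which read the same backwards, and the digit at the place `j` (counted from
the last digit, which has the place `0`) is in `A i`, where `i` is the smaller one of `j` and the opposite place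
`K - 1 - j`. -/
def Pal (b : ℕ) (A : ℕ → Finset ℕ) (K n : ℕ) : Prop :=
  (Nat.digits b n).length = K ∧ (Nat.digits b n).reverse = Nat.digits b n ∧
    ∀ j < K, (Nat.digits b n).getD j 0 ∈ A (min j (K - 1 - j))

open Classical in
/-- **Almost primes and primes among the palindromes with digits in arbitrary sets.** -/
theorem result : ∀ b : ℕ, 2 ≤ b → ∃ c C : ℝ, 0 < c ∧ 0 < C ∧ ∃ r : ℕ, ∀ᶠ K : ℕ in atTop, ∀ A : ℕ → Finset ℕ,
    (∀ i < (K + 1) / 2, A i ⊆ Finset.range b ∧ 2 ≤ (A i).card) →
      c * (∏ i ∈ Finset.range ((K + 1) / 2), ((A i).card : ℝ)) / K ≤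
        (((Finset.range (b ^ K)).filter (fun n : ℕ => Pal b A K n ∧ n.primeFactorsList.length ≤ r)).card : ℝ) ∧
      (((Finset.range (b ^ K)).filter (fun n : ℕ => Pal b A K n ∧ n.Prime)).card : ℝ) ≤
        C * (∏ i ∈ Finset.range ((K + 1) / 2), ((A i).card : ℝ)) / K := by
  intro b hb
  obtain ⟨c, hc, r, h⟩ := Pool.Agent.Run7.h620.PX.lowX b hb
  obtain ⟨C, hC, h'⟩ := Pool.Agent.Run7.h620.PX.upX b hb
  have hb0 : (0 : ℝ) < b := by
    have : 0 < b := by omega
    exact_mod_cast this
  have hb1 : (1 : ℝ) ≤ b := by
    have : 1 ≤ b := by omega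
    exact_mod_cast this
  refine ⟨c / b ^ 2, C, by positivity, hC, r, ?_⟩
  filter_upwards [h, h', eventually_ge_atTop 12] with K hK hKu hK12 A hA
  have hK0 : (0 : ℝ) < K := by
    have : 0 < K := by omega
    exact_mod_cast this
  have hOk : Pool.Agent.Run7.h620.PX.Ok b (fun i => if i < (K + 1) / 2 then A i else range b) := by
    intro i
    dsimp only
    split_ifs with hi
    · exact hA i hi
    · refine ⟨Subset.rfl, ?_⟩
      rw [card_range]
      exact hb
  obtain ⟨P, hP1, hP2⟩ := hK _ hOk
  obtain ⟨H, hH⟩ : ∃ H : ℕ, H = (K - 2) / 2 := ⟨_, rfl⟩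
  have hXX : (Pool.Agent.Run7.h620.PX.XX (fun i => if i < (K + 1) / 2 then A i else range b) ((K - 2) / 2) : ℝ) =
      ∏ t ∈ range H, ((A (t + 1)).card : ℝ) := by
    unfold Pool.Agent.Run7.h620.PX.XX
    rw [← hH, Nat.cast_prod]
    refine prod_congr rfl fun t ht => ?_
    rw [mem_range] at ht
    dsimp only
    rw [if_pos (by omega)]
  rw [hXX] at hP1
  have hcb : ∀ i < (K + 1) / 2, ((A i).card : ℝ) ≤ b := by
    intro i hi
    have := card_le_card (hA i hi).1
    rw [card_range] at this
    exact_mod_cast this
  have hprod0 : (0 : ℝ) ≤ ∏ t ∈ range H, ((A (t + 1)).card : ℝ) := prod_nonneg fun t _ => Nat.cast_nonneg _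
  have hprod : ∏ i ∈ Finset.range ((K + 1) / 2), ((A i).card : ℝ) ≤ (b : ℝ) ^ 2 * ∏ t ∈ range H, ((A (t + 1)).card : ℝ) := by
    have h1 : ∏ i ∈ Finset.range (H + 1), ((A i).card : ℝ) ≤ (b : ℝ) * ∏ t ∈ range H, ((A (t + 1)).card : ℝ) := by
      rw [prod_range_succ', mul_comm]
      exact mul_le_mul_of_nonneg_right (hcb 0 (by omega)) hprod0
    rcases Nat.lt_or_ge (H + 1) ((K + 1) / 2) with h2 | h2
    · have h3 : (K + 1) / 2 = H + 1 + 1 := by omega
      rw [h3, prod_range_succ]
      calc (∏ i ∈ Finset.range (H + 1), ((A i).card : ℝ)) * ((A (H + 1)).card : ℝ) ≤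
            ((b : ℝ) * ∏ t ∈ range H, ((A (t + 1)).card : ℝ)) * b := by
            apply mul_le_mul h1 (hcb _ h2) (Nat.cast_nonneg _) (mul_nonneg hb0.le hprod0)
        _ = _ := by ring
    · have h3 : (K + 1) / 2 = H + 1 := by omega
      rw [h3]
      refine h1.trans ?_
      apply mul_le_mul_of_nonneg_right _ hprod0
      nlinarith
  have hle : P ⊆ (Finset.range (b ^ K)).filter (fun n : ℕ => Pal b A K n ∧ n.primeFactorsList.length ≤ r) := by
    intro n hn
    obtain ⟨g1, g2, g3, g4, g5⟩ := hP2 n hn
    rw [mem_filter, mem_range]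
    rw [ArithmeticFunction.cardFactors_apply] at g5
    refine ⟨g1, ⟨g2, g3, ?_⟩, g5⟩
    intro j hj
    have := g4 j hj
    rw [if_pos (by omega)] at this
    exact this
  refine ⟨?_, ?_⟩
  rotate_left
  · have h1 := hKu _ hOk ((Finset.range (b ^ K)).filter (fun n : ℕ => Pal b A K n ∧ n.Prime)) (by
      intro n hn
      obtain ⟨⟨g1, g2, g3⟩, g4⟩ := (mem_filter.1 hn).2
      refine ⟨g4, g1, g2, fun j hj => ?_⟩
      rw [if_pos (by omega)]
      exact g3 j hj)
    rw [hXX] at h1
    refine h1.trans ?_
    have hcl : ∀ i < (K + 1) / 2, (1 : ℝ) ≤ ((A i).card : ℝ) := by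
      intro i hi
      have h2 := (hA i hi).2
      have h3 : 1 ≤ (A i).card := by omega
      exact_mod_cast h3
    have hlow : ∏ t ∈ range H, ((A (t + 1)).card : ℝ) ≤ ∏ i ∈ Finset.range ((K + 1) / 2), ((A i).card : ℝ) := by
      have h2 : ∏ t ∈ range H, ((A (t + 1)).card : ℝ) ≤ ∏ i ∈ Finset.range (H + 1), ((A i).card : ℝ) := by
        rw [prod_range_succ']
        exact le_mul_of_one_le_right hprod0 (hcl 0 (by omega))
      refine h2.trans ?_
      apply Finset.prod_le_prod_of_subset_of_one_le
      · exact range_subset_range.2 (by omega)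
      · intro i _
        exact Nat.cast_nonneg _
      · intro i hi _
        exact hcl i (mem_range.1 hi)
    gcongr
  calc c / b ^ 2 * (∏ i ∈ Finset.range ((K + 1) / 2), ((A i).card : ℝ)) / K ≤
        c / b ^ 2 * ((b : ℝ) ^ 2 * ∏ t ∈ range H, ((A (t + 1)).card : ℝ)) / K := by gcongr
    _ = c * (∏ t ∈ range H, ((A (t + 1)).card : ℝ)) / K := by field_simp
    _ ≤ P.card := hP1
    _ ≤ _ := by exact_mod_cast card_le_card hle

end Pool.Agent.Results.MP_e8d2ce_nt.ArbitraryDigitSets
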