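import Pool.Agent.Results.MP_e8d2ce_nt.ShortIntervals
import Pool.Agent.Run7.h414.PM.Pal

set_option autoImplicit false

/-!
# Palindromes with almost all digits prescribed, in random models of the primes and among randomly displaced primes

Let `b ≥ 2`. We replace the primes by a random set, and show that almost surely, for ALL large `N`, ALL integers `x` with
`2 N + 1` base `b` digits (leading digit prime to `b`) and ALL `L` with `A log N ≤ L < N` the number of the palindromes in
the random set with `2 N + 1` digits whose `N - L` leading digits are those of `x` is asymptotic to its expected value,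
which is at least a constant times `b ^ L / (L N)`. So all but `A log N` of the `N + 1` free digits can be prescribed. This
holds for
(1) every sequential random model of the primes with a sieve up to any power of `log m`: the multiples of the primes `q ≤ z m`
are forbidden for `m`, `z m ≤ (log m) ^ C₀`, and every other `m` is accepted with a conditional probability asymptotic to
`∏_{q ≤ z m} (1 - 1/q)⁻¹ / log m`, the decisions being allowed to depend on each other in an arbitrary way; and
(2) the perturbed primes: the `m` for which the true number `m + J_m w_m` is prime, `w_m` the product of the primes up to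
`z m ≤ C log log m`, and the `J_m` independent and uniformly distributed on `{0, …, Q m - 1}`, `Q m w_m` lying between
`m / (log m)^C` and `m`.
-/

namespace Pool.Agent.Results.MP_e8d2ce_nt.ModelsPrescribedDigits

open Filter MeasureTheory ProbabilityTheory
open scoped Topology

/-- No prime `q ≤ z m` divides `m`. -/
def Sieved (z : ℕ → ℕ) (m : ℕ) : Prop := ∀ q, q.Prime → q ≤ z m → ¬ q ∣ m

/-- `V x = ∏_{q ≤ x, q prime} (1 - 1/q)⁻¹`. -/
noncomputable def V (x : ℕ) : ℝ := ∏ q ∈ (Finset.Icc 1 x).filter Nat.Prime, (1 - (q : ℝ)⁻¹)⁻¹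

open Classical in
/-- The density of the model at `m`. -/
noncomputable def rho (z : ℕ → ℕ) (m : ℕ) : ℝ := if Sieved z m then V (z m) / Real.log m else 0

/-- The base `b` palindromes `n < b ^ (2 N + 1)` with `⌊n / b ^ (N + L + 1)⌋ = ⌊x / b ^ (N + L + 1)⌋`. If `x` has `2 N + 1` digits
and `L < N`, these are the palindromes with `2 N + 1` digits which have the same `N - L` leading digits as `x`. -/
def Pal (b N L x : ℕ) : Finset ℕ :=
  (Finset.range (b ^ (2 * N + 1))).filter
    (fun n => (Nat.digits b n).reverse = Nat.digits b n ∧ n / b ^ (N + L + 1) = x / b ^ (N + L + 1))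

open Classical in
/-- The number of the palindromes with the prescribed digits in `S`. -/
noncomputable def R (S : Set ℕ) (b N L x : ℕ) : ℕ := ((Pal b N L x).filter (fun n => n ∈ S)).card

/-- The expected number. -/
noncomputable def E (z : ℕ → ℕ) (b N L x : ℕ) : ℝ := ∑ n ∈ Pal b N L x, rho z n

/-- `x` has `2 N + 1` base `b` digits, the leading one prime to `b`, and `A log N ≤ L < N`. -/
def Range (A b N L x : ℕ) : Prop :=
  b ^ (2 * N) ≤ x ∧ x < b ^ (2 * N + 1) ∧ (x / b ^ (2 * N)).Coprime b ∧ (A : ℝ) * Real.log N ≤ L ∧ L < N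

/-- The law: for every `η > 0` and all large `N`, for all `x` and `L` in the range, `|R - E| ≤ η E`. -/
def Law (A b : ℕ) (z : ℕ → ℕ) (S : Set ℕ) : Prop :=
  ∀ η : ℝ, 0 < η → ∀ᶠ N : ℕ in atTop, ∀ L x : ℕ, Range A b N L x →
    |(R S b N L x : ℝ) - E z b N L x| ≤ η * E z b N L x

/-- A sequential random model of the primes with the sieve `z`: the event `A m` (that `m` belongs to the random set) is
decided at time `m`; it is empty if some prime `q ≤ z m` divides `m`; and almost surely the conditional probability of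
`A (m + 1)` given the information up to time `m` is asymptotic to `V (z (m + 1)) / log m` along the `m` for which `m + 1` has
no prime factor `q ≤ z (m + 1)`. -/
structure Model {Ω : Type} [m0 : MeasurableSpace Ω] (μ : Measure Ω) (ℱ : Filtration ℕ m0) (z : ℕ → ℕ) (A : ℕ → Set Ω) : Prop where
  adapted : ∀ m, MeasurableSet[ℱ m] (A m)
  sieved : ∀ m, ¬ Sieved z m → A m = ∅
  density : ∀ᵐ ω ∂μ, Tendsto
    (fun m : ℕ => (μ[(A (m + 1)).indicator (fun _ => (1 : ℝ)) | ℱ m]) ω * Real.log m / V (z (m + 1)))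
    (atTop ⊓ 𝓟 {m : ℕ | Sieved z (m + 1)}) (𝓝 1)

/-- The random variables `J m` are independent, and `J m` is uniformly distributed on `{0, …, Q m - 1}`. -/
structure IndependentUniform {Ω : Type} [MeasurableSpace Ω] (μ : Measure Ω) (Q : ℕ → ℕ) (J : ℕ → Ω → ℕ) : Prop where
  measurable : ∀ m, Measurable (J m)
  independent : iIndepFun J μ
  uniform : ∀ m, 0 < Q m ∧ ∀ j < Q m, μ.real {ω | J m ω = j} = 1 / Q m

/-- The perturbed primes: the `m` for which `m + j_m w_m` is a prime larger than `z m`, where `w_m` is the product of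
the primes up to `z m`. -/
def Perturbed (z : ℕ → ℕ) (j : ℕ → ℕ) : Set ℕ :=
  {m | (m + j m * primorial (z m)).Prime ∧ z m < m + j m * primorial (z m)}

/-- **Palindromes with almost all digits prescribed.** Let `b ≥ 2`, let `z m ≤ (log m) ^ C₀` for large `m`, and
`A = 35 C₀ + 6`. There is `c > 0` with `E ≥ c b ^ L / (L N)` for all large `N` and all `L`, `x` in the range. The law holds
almost surely (1) for every sequential random model of the primes with the sieve `z`, and (2) for the perturbed primes,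
if `z m ≤ C log log m` and `m / (log m)^C ≤ Q m w_m ≤ m` for large `m`. -/
theorem result (b : ℕ) (hb : 2 ≤ b) (C₀ : ℕ) (z : ℕ → ℕ) (hz : ∀ᶠ m : ℕ in atTop, (z m : ℝ) ≤ Real.log m ^ C₀) :
    (∃ c : ℝ, 0 < c ∧ ∀ᶠ N : ℕ in atTop, ∀ L x : ℕ, Range (35 * C₀ + 6) b N L x →
      c * (b : ℝ) ^ L / (L * N) ≤ E z b N L x) ∧
    (∀ (Ω : Type) (m0 : MeasurableSpace Ω) (μ : Measure Ω) (_ : IsProbabilityMeasure μ) (ℱ : Filtration ℕ m0)
      (A : ℕ → Set Ω), Model μ ℱ z A → ∀ᵐ ω ∂μ, Law (35 * C₀ + 6) b z {m | ω ∈ A m}) ∧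
    (∀ (C : ℕ) (Q : ℕ → ℕ), (∀ᶠ m : ℕ in atTop, (z m : ℝ) ≤ C * Real.log (Real.log m)) →
      (∀ᶠ m : ℕ in atTop, (m : ℝ) / Real.log m ^ C ≤ Q m * primorial (z m) ∧ Q m * primorial (z m) ≤ m) →
      ∀ (Ω : Type) (_ : MeasurableSpace Ω) (μ : Measure Ω) (_ : IsProbabilityMeasure μ) (J : ℕ → Ω → ℕ),
        IndependentUniform μ Q J → ∀ᵐ ω ∂μ, Law (35 * C₀ + 6) b z (Perturbed z (fun m => J m ω))) := by
  classical
  obtain ⟨c, C', hc, -, L₀, hmain⟩ := (Pool.Agent.Results.MP_e8d2ce_nt.ShortIntervals.result b hb).1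
  have hlow : ∀ L N x : ℕ, L₀ ≤ L → L < N → b ^ (2 * N) ≤ x → x < b ^ (2 * N + 1) → (x / b ^ (2 * N)).Coprime b →
      c * (b : ℝ) ^ L / L ≤ (((Pool.Agent.Run7.h414.PM.Pal.Cl b N L x).filter
        (fun n => ∀ p ∈ n.primeFactorsList, b ^ L < p ^ 12)).card : ℝ) := by
    intro L N x h1 h2 h3 h4 h5
    refine ((hmain L N x h1 h2 h3 h4).1 h5).trans ?_
    exact_mod_cast Finset.card_le_card (by
      intro n hn
      unfold Pool.Agent.Run7.h414.PM.Pal.Cl
      rw [Finset.mem_filter] at hn ⊢
      obtain ⟨g1, g2, g3, g4, -⟩ := hn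
      rw [Finset.mem_filter]
      exact ⟨⟨g1, g2, g3⟩, g4⟩)
  have hE := Pool.Agent.Run7.h414.PM.Pal.E_low b C₀ hb z hz c L₀ hlow
  have hbr : (2 : ℝ) ≤ b := by exact_mod_cast hb
  have hlb : 0 < Real.log b := Real.log_pos (by linarith)
  have hV : ∀ᶠ m : ℕ in atTop, Pool.Agent.N233.GM.W (z m) / Real.log m < 1 := by
    obtain ⟨δ, hδ, h⟩ := Pool.Agent.N233.GM.W_small
    apply h z
    have h0 := (isLittleO_log_rpow_rpow_atTop (C₀ : ℝ) hδ).def (c := 1) one_pos
    filter_upwards [hz, tendsto_natCast_atTop_atTop.eventually h0, Pool.Agent.Run7.h414.PM.Pal.logt'.eventually_ge_atTop 1]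
      with n h1 h2 h3
    rw [Real.norm_of_nonneg (by positivity), Real.norm_of_nonneg (by positivity), Real.rpow_natCast, one_mul] at h2
    exact h1.trans h2
  have key : ∀ (Ω : Type) (m0 : MeasurableSpace Ω) (μ : Measure Ω) (_ : IsProbabilityMeasure μ) (ℱ : Filtration ℕ m0)
      (A : ℕ → Set Ω), Model μ ℱ z A → ∀ᵐ ω ∂μ, Law (35 * C₀ + 6) b z {m | ω ∈ A m} := by
    intro Ω m0 μ hμ ℱ A hA
    have h := Pool.Agent.Run7.h414.PM.Pal.model (μ := μ) (ℱ := ℱ) (A := A) b hb z hV hA.adapted hA.sieved hA.density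
    filter_upwards [h] with ω hω η hη
    have hR : ∀ N L x : ℕ, (R {m | ω ∈ A m} b N L x : ℝ) =
        ∑ m ∈ Pool.Agent.Run7.h414.PM.Pal.Cl b N L x, Pool.Agent.R528.RM.In A m ω := by
      intro N L x
      unfold R
      rw [Finset.card_filter]
      push_cast
      refine Finset.sum_congr rfl fun m _ => ?_
      unfold Pool.Agent.R528.RM.In
      by_cases h : ω ∈ A m
      · simp [h]
      · simp [h]
    have hf := Pool.Agent.Run7.h414.PM.Pal.final b C₀ hb (fun N L x => (R {m | ω ∈ A m} b N L x : ℝ))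
      (fun N L x => E z b N L x) c hc hE (by
        intro η' hη'
        obtain ⟨K, hK0, hK⟩ := hω η' hη'
        refine ⟨K, hK0, ?_⟩
        filter_upwards [hK] with x hx N L h1 h2 h3
        rw [hR]
        exact hx N L h1 h2 h3) η hη
    filter_upwards [hf] with N hN L x hx
    exact hN L x hx.2.2.2.1 hx.2.2.2.2 hx.1 hx.2.1 hx.2.2.1
  refine ⟨⟨c / (3 * Real.log b), by positivity, ?_⟩, key, ?_⟩
  · filter_upwards [hE] with N hN L x hx
    refine le_trans (le_of_eq ?_) (hN L x hx.2.2.2.1 hx.2.2.2.2 hx.1 hx.2.1 hx.2.2.1)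
    rcases Nat.eq_zero_or_pos L with h0 | h0
    · rw [h0]
      simp
    · have hL : (0 : ℝ) < L := by exact_mod_cast h0
      have hN0 : (0 : ℝ) < N := by exact_mod_cast lt_trans h0 hx.2.2.2.2
      field_simp
  · intro C Q hz' hQ Ω m0 μ hμ J hJ
    obtain ⟨ℱ, g1, g2, g3⟩ := Pool.Agent.Run7.h414.PM.pert z Q C hz' hQ J ⟨hJ.measurable, hJ.independent, hJ.uniform⟩
    exact key Ω m0 μ hμ ℱ (Pool.Agent.Run7.h414.PM.PA z J) ⟨g1, g2, g3⟩

end Pool.Agent.Results.MP_e8d2ce_nt.ModelsPrescribedDigits
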