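import Pool.Agent.Run7.h620.PD.Wu

set_option autoImplicit false

/-!
# Palindromic primes with prescribed outer digits and two digits inside, from above

Let `b ≥ 2`. For digits `e ≠ f` and any word `w` of digits consider the palindromes `n` with `L + 2 |w|` base `b`
digits which begin with `w` (and so end with `w` in the reverse order) and whose other `L` digits are all `e` or `f`.
There are about `2 ^ (L / 2)` such `n`, in an interval of length `b ^ (L + |w|)`. At most `C 2 ^ (L / 2) / L` of them
are prime, where `C` depends only on `b`: an analogue of the theorem of Brun and Titchmarsh.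

Proof. The inner part is a palindrome with two digits, multiplied by `b ^ |w|`, plus a constant. The number of the
nonzero balanced digits is estimated for all fractions with denominators up to `exp (c L)` at once, and multiplication
by `b ^ |w|` permutes the fractions whose denominators are prime to `b`. So the members of the family have a positive
level of distribution, uniformly in `w`, and the fundamental lemma and the theorem of Mertens give the bound.
-/

namespace Pool.Agent.Results.MP_e8d2ce_nt.PrescribedOuterDigitsPrimes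

open Finset Filter

/-- `n` has exactly `L + 2 |w|` base `b` digits, they read the same backwards, the first `|w|` digits and the last
`|w|` digits are those of `w`, and the other `L` digits are `e` or `f`. -/
def Pal (b e f L : ℕ) (w : List ℕ) (n : ℕ) : Prop :=
  (Nat.digits b n).length = L + 2 * w.length ∧ (Nat.digits b n).reverse = Nat.digits b n ∧
    ∃ v : List ℕ, Nat.digits b n = w ++ v ++ w.reverse ∧ ∀ x ∈ v, x = e ∨ x = f

theorem small (b e f L : ℕ) (w : List ℕ) (P : Finset ℕ) (hP : ∀ n ∈ P, Pal b e f L w n) : P.card ≤ 2 ^ L := by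
  classical
  have h1 : P ⊆ ((range L).powerset).image (fun T => Nat.ofDigits b
      (w ++ (List.range L).map (fun j => if j ∈ T then f else e) ++ w.reverse)) := by
    intro n hn
    obtain ⟨g1, _, v, g3, g4⟩ := hP n hn
    have hl : v.length = L := by
      rw [g3, List.length_append, List.length_append, List.length_reverse] at g1
      omega
    rw [mem_image]
    refine ⟨(range L).filter (fun j => v.getD j 0 = f), mem_powerset.2 (filter_subset _ _), ?_⟩
    have h2 : (List.range L).map (fun j => if j ∈ (range L).filter (fun j => v.getD j 0 = f) then f else e) = v := by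
      apply List.ext_getElem
      · simp [hl]
      · intro j hj hj'
        rw [List.getElem_map, List.getElem_range]
        have hjL : j < L := by rw [← hl]; exact hj'
        have hmem : j ∈ (range L).filter (fun j => v.getD j 0 = f) ↔ v[j] = f := by
          rw [mem_filter, mem_range, List.getD_eq_getElem _ _ hj']
          exact ⟨fun h => h.2, fun h => ⟨hjL, h⟩⟩
        by_cases h3 : v[j] = f
        · rw [if_pos (hmem.2 h3), h3]
        · rw [if_neg (fun h => h3 (hmem.1 h))]
          rcases g4 v[j] (List.getElem_mem hj') with h4 | h4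
          · exact h4.symm
          · exact absurd h4 h3
    rw [h2, ← g3, Nat.ofDigits_digits]
  calc P.card ≤ (((range L).powerset).image (fun T => Nat.ofDigits b
      (w ++ (List.range L).map (fun j => if j ∈ T then f else e) ++ w.reverse))).card := card_le_card h1
    _ ≤ ((range L).powerset).card := card_image_le
    _ = 2 ^ L := by rw [card_powerset, card_range]

open Classical in
theorem one (b : ℕ) (hb : 2 ≤ b) (e f : ℕ) (hef : e ≠ f) : ∃ C : ℝ, 0 < C ∧ ∀ L : ℕ, 1 ≤ L → ∀ w : List ℕ,
    (((Finset.range (b ^ (L + 2 * w.length))).filter (fun n : ℕ => n.Prime ∧ Pal b e f L w n)).card : ℝ) ≤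
      C * (2 : ℝ) ^ ((L : ℝ) / 2) / L := by
  obtain ⟨C, hC, K₀, h⟩ := Pool.Agent.Run7.h620.PD.w_up b hb e f (Ne.symm hef)
  refine ⟨C + 2 ^ K₀ * K₀, by positivity, ?_⟩
  intro L hL w
  have hLr : (0 : ℝ) < L := by exact_mod_cast hL
  by_cases hLK : K₀ ≤ L
  · refine (h L hLK w _ (fun n hn => ?_)).trans ?_
    · have hn' := (mem_filter.1 hn).2
      exact ⟨hn'.1, hn'.2.1, hn'.2.2.1, hn'.2.2.2⟩
    · have : C ≤ C + 2 ^ K₀ * K₀ := by
        have : (0 : ℝ) ≤ 2 ^ K₀ * K₀ := by positivity
        linarith
      gcongr
  · have h1 := small b e f L w ((Finset.range (b ^ (L + 2 * w.length))).filter (fun n : ℕ => n.Prime ∧ Pal b e f L w n))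
      (fun n hn => (mem_filter.1 hn).2.2)
    have h2 : (((Finset.range (b ^ (L + 2 * w.length))).filter (fun n : ℕ => n.Prime ∧ Pal b e f L w n)).card : ℝ) ≤
        2 ^ L := by exact_mod_cast h1
    refine h2.trans ?_
    rw [le_div_iff₀ hLr]
    have h3 : (2 : ℝ) ^ L ≤ 2 ^ K₀ := pow_le_pow_right₀ (by norm_num) (by omega)
    have h4 : (L : ℝ) ≤ K₀ := by
      have : L ≤ K₀ := by omega
      exact_mod_cast this
    have h5 : (1 : ℝ) ≤ (2 : ℝ) ^ ((L : ℝ) / 2) := Real.one_le_rpow (by norm_num) (by positivity)
    calc (2 : ℝ) ^ L * L ≤ 2 ^ K₀ * K₀ := by gcongr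
      _ ≤ (C + 2 ^ K₀ * K₀) * 1 := by linarith
      _ ≤ _ := by gcongr

open Classical in
/-- **Palindromic primes with prescribed outer digits and two digits inside, from above.** -/
theorem result : ∀ b : ℕ, 2 ≤ b → ∃ C : ℝ, 0 < C ∧ ∀ e f : ℕ, e < b → f < b → e ≠ f → ∀ L : ℕ, 1 ≤ L →
    ∀ w : List ℕ,
      (((Finset.range (b ^ (L + 2 * w.length))).filter (fun n : ℕ => n.Prime ∧ Pal b e f L w n)).card : ℝ) ≤
        C * (2 : ℝ) ^ ((L : ℝ) / 2) / L := by
  intro b hb
  have h1 : ∀ x : ℕ × ℕ, ∃ C : ℝ, 0 < C ∧ (x.1 ≠ x.2 → ∀ L : ℕ, 1 ≤ L → ∀ w : List ℕ,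
      (((Finset.range (b ^ (L + 2 * w.length))).filter (fun n : ℕ => n.Prime ∧ Pal b x.1 x.2 L w n)).card : ℝ) ≤
        C * (2 : ℝ) ^ ((L : ℝ) / 2) / L) := by
    intro x
    by_cases hx : x.1 = x.2
    · exact ⟨1, one_pos, fun h => absurd hx h⟩
    · obtain ⟨C, hC, h⟩ := one b hb x.1 x.2 hx
      exact ⟨C, hC, fun _ => h⟩
  choose C hC h using h1
  refine ⟨∑ x ∈ range b ×ˢ range b, C x, ?_, ?_⟩
  · apply sum_pos (fun x _ => hC x)
    have hb0 : 0 < b := by omega
    exact ⟨(0, 0), mem_product.2 ⟨mem_range.2 hb0, mem_range.2 hb0⟩⟩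
  · intro e f he hf hef L hL w
    refine (h (e, f) hef L hL w).trans ?_
    have h2 : C (e, f) ≤ ∑ x ∈ range b ×ˢ range b, C x := by
      apply single_le_sum (fun x _ => (hC x).le)
      rw [mem_product, mem_range, mem_range]
      exact ⟨he, hf⟩
    gcongr

end Pool.Agent.Results.MP_e8d2ce_nt.PrescribedOuterDigitsPrimes
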