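import Pool.Agent.Run7.h620.PD.Dec

set_option autoImplicit false

/-!
# Level of distribution of the palindromes with two digits

For every base `b ≥ 2` and digits `e ≠ f` let `A K` be the set of the palindromes with exactly `K` digits, all of them
`e` or `f`. Then the sum over the moduli `q ≤ 2 ^ (K / M)`, prime to `b (b ^ 2 - 1) (f - e)`, of the largest error of
`#A K / q` as an approximation of the number of members of `A K` in a class modulo `q` is
`O(2 ^ (K / 2) exp (-c √K))`.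

Proof. `A K` is the disjoint union of at most eight families `n₀ + (f - e) ∑_{i ∈ S} (b ^ i + b ^ (K - 1 - i))` with
`S` free, so that the exponential sums are products of cosines. Consecutive factors cannot both be close to
one at a place where the balanced expansion of `b (b ^ 2 - 1) (f - e) a / q` has a nonzero digit. The fractions with
denominators up to `exp (c K)` are distinguished by the first digits of their expansions, and so a sum over
all of them is at most a sum over the digit strings, which is a product.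
-/

namespace Pool.Agent.Results.MP_e8d2ce_nt.TwoDigitLevelOfDistribution

open Finset Filter

open Classical in
/-- The set of the palindromes with exactly `K` base `b` digits, all of them `e` or `f`. -/
noncomputable def A (b e f K : ℕ) : Finset ℕ := (Finset.range (b ^ K)).filter (fun n : ℕ =>
  (Nat.digits b n).length = K ∧ (Nat.digits b n).reverse = Nat.digits b n ∧ ∀ d ∈ Nat.digits b n, d = e ∨ d = f)

open Pool.Agent.Run7.h620.PD in
/-- **Level of distribution of the palindromes with two digits.** -/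
theorem result : ∀ b : ℕ, 2 ≤ b → ∀ e f : ℕ, e < b → f < b → e ≠ f →
    ∃ M : ℕ, 1 ≤ M ∧ ∃ c : ℝ, 0 < c ∧ ∀ᶠ K : ℕ in atTop, ∀ a : ℕ → ℤ,
      ∑ q ∈ (Finset.Icc 1 (2 ^ (K / M))).filter (fun q : ℕ =>
          IsCoprime (q : ℤ) ((b : ℤ) * ((b : ℤ) ^ 2 - 1) * ((f : ℤ) - e))),
        |(((A b e f K).filter (fun n : ℕ => (q : ℤ) ∣ (n : ℤ) - a q)).card : ℝ) - ((A b e f K).card : ℝ) / q| ≤
      (2 : ℝ) ^ ((K : ℝ) / 2) * Real.exp (-(c * Real.sqrt K)) := by
  classical
  intro b hb e f he hf hef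
  obtain ⟨M, hM, c, hc, h⟩ := level_fam b hb ((f : ℤ) - e) (by omega)
  refine ⟨M, hM, c / 2, by positivity, ?_⟩
  filter_upwards [h, ev_exp 8 (c / 2) (by positivity), eventually_ge_atTop 4] with K hK hexp hK4 a
  have hA : ∀ (q : ℕ) (r : ℤ), (((A b e f K).filter (fun n : ℕ => (q : ℤ) ∣ (n : ℤ) - r)).card : ℝ) =
      ∑ T₀ ∈ TT K e f, cnt (Icc 1 ((K - 2) / 2)).powerset (vv b K (cT b K e f T₀) ((f : ℤ) - e)) q r := by
    intro q r
    rw [← decomp b K e f hb he hf (Ne.symm hef) hK4 q r]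
    unfold A
    rw [filter_filter]
    congr 2
    ext n
    rw [mem_filter, mem_filter]
    exact Iff.rfl
  have hA1 : ((A b e f K).card : ℝ) = ∑ T₀ ∈ TT K e f, (2 : ℝ) ^ ((K - 2) / 2) := by
    have h1 := hA 1 0
    have h2 : (A b e f K).filter (fun n : ℕ => ((1 : ℕ) : ℤ) ∣ (n : ℤ) - 0) = A b e f K :=
      filter_true_of_mem (fun n _ => by simp)
    rw [h2] at h1
    rw [h1]
    refine sum_congr rfl fun T₀ _ => ?_
    unfold cnt
    rw [filter_true_of_mem (fun S _ => by simp), card_powerset, Nat.card_Icc]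
    push_cast
    congr 1
  have hTT : ((TT K e f).card : ℝ) ≤ 8 := by
    have h1 : (TT K e f).card ≤ 2 ^ 3 := by
      unfold TT
      refine (card_filter_le _ _).trans ?_
      rw [card_powerset]
      exact Nat.pow_le_pow_right (by norm_num) (Mid_card K hK4)
    exact_mod_cast h1
  have hset : (Finset.Icc 1 (2 ^ (K / M))).filter (fun q : ℕ =>
          IsCoprime (q : ℤ) ((b : ℤ) * ((b : ℤ) ^ 2 - 1) * ((f : ℤ) - e))) =
      (Finset.Icc 1 (2 ^ (K / M))).filter (fun q : ℕ =>
          IsCoprime (q : ℤ) ((b : ℤ) * (((b : ℤ) ^ 2 - 1) * ((f : ℤ) - e)))) := by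
    simp only [mul_assoc]
  rw [hset]
  have h6 : (2 : ℝ) ^ ((K - 2) / 2) ≤ (2 : ℝ) ^ ((K : ℝ) / 2) := by
    rw [← Real.rpow_natCast]
    apply Real.rpow_le_rpow_of_exponent_le (by norm_num)
    have : 2 * ((K - 2) / 2) ≤ K := by omega
    have : (2 * ((K - 2) / 2 : ℕ) : ℝ) ≤ K := by exact_mod_cast this
    linarith
  have hKr : (1 : ℝ) ≤ K := by
    have : 1 ≤ K := by omega
    exact_mod_cast this
  calc ∑ q ∈ (Finset.Icc 1 (2 ^ (K / M))).filter (fun q : ℕ =>
          IsCoprime (q : ℤ) ((b : ℤ) * (((b : ℤ) ^ 2 - 1) * ((f : ℤ) - e)))),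
        |(((A b e f K).filter (fun n : ℕ => (q : ℤ) ∣ (n : ℤ) - a q)).card : ℝ) - ((A b e f K).card : ℝ) / q|
      ≤ ∑ q ∈ (Finset.Icc 1 (2 ^ (K / M))).filter (fun q : ℕ =>
          IsCoprime (q : ℤ) ((b : ℤ) * (((b : ℤ) ^ 2 - 1) * ((f : ℤ) - e)))),
        ∑ T₀ ∈ TT K e f, |cnt (Icc 1 ((K - 2) / 2)).powerset (vv b K (cT b K e f T₀) ((f : ℤ) - e)) q (a q) -
          2 ^ ((K - 2) / 2) / q| := by
        refine sum_le_sum fun q _ => ?_
        rw [hA, hA1, sum_div, ← sum_sub_distrib]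
        exact abs_sum_le_sum_abs _ _
    _ = ∑ T₀ ∈ TT K e f, ∑ q ∈ (Finset.Icc 1 (2 ^ (K / M))).filter (fun q : ℕ =>
          IsCoprime (q : ℤ) ((b : ℤ) * (((b : ℤ) ^ 2 - 1) * ((f : ℤ) - e)))),
        |cnt (Icc 1 ((K - 2) / 2)).powerset (vv b K (cT b K e f T₀) ((f : ℤ) - e)) q (a q) -
          2 ^ ((K - 2) / 2) / q| := sum_comm
    _ ≤ ∑ _T₀ ∈ TT K e f, (2 : ℝ) ^ ((K - 2) / 2) * Real.exp (-(c * Real.sqrt K)) :=
        sum_le_sum fun T₀ _ => hK (cT b K e f T₀) a
    _ = ((TT K e f).card : ℝ) * ((2 : ℝ) ^ ((K - 2) / 2) * Real.exp (-(c * Real.sqrt K))) := by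
        rw [sum_const, nsmul_eq_mul]
    _ ≤ 8 * ((2 : ℝ) ^ ((K : ℝ) / 2) * Real.exp (-(c * Real.sqrt K))) := by gcongr
    _ = (2 : ℝ) ^ ((K : ℝ) / 2) * (8 * Real.exp (-(c * Real.sqrt K))) := by ring
    _ ≤ (2 : ℝ) ^ ((K : ℝ) / 2) * Real.exp (-(c / 2 * Real.sqrt K)) := by
        apply mul_le_mul_of_nonneg_left _ (by positivity)
        have h8 : 8 ≤ Real.exp (c / 2 * Real.sqrt K) := by
          refine le_trans ?_ hexp
          have : (1 : ℝ) ≤ (K : ℝ) ^ 4 := one_le_pow₀ hKr
          linarith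
        calc 8 * Real.exp (-(c * Real.sqrt K)) ≤ Real.exp (c / 2 * Real.sqrt K) * Real.exp (-(c * Real.sqrt K)) := by
              gcongr
          _ = _ := by
              rw [← Real.exp_add]
              congr 1
              ring

end Pool.Agent.Results.MP_e8d2ce_nt.TwoDigitLevelOfDistribution
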